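import Mathlib

namespace Pool.Agent.MP_71da5e_an.A

open MeasureTheory Metric Set Laplacian Filter Topology
open scoped ContDiff

variable {n : ℕ}

/-- `ρ` is a smooth local defining function of `Ω` at `p`: its gradient at `p` is not zero (it is
an outer normal vector) and `Ω` is the set `ρ < 0` near `p`. -/
def IsDef (Ω : Set (EuclideanSpace ℝ (Fin n))) (p : EuclideanSpace ℝ (Fin n))
    (ρ : EuclideanSpace ℝ (Fin n) → ℝ) : Prop :=
  ContDiff ℝ ∞ ρ ∧ gradient ρ p ≠ 0 ∧ ∀ᶠ x in 𝓝 p, (x ∈ Ω ↔ ρ x < 0)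

/-- `Ω` has a smooth boundary. -/
def SmoothBoundary (Ω : Set (EuclideanSpace ℝ (Fin n))) : Prop :=
  ∀ p ∈ frontier Ω, ∃ ρ, IsDef Ω p ρ

/-- Green's form on `Ω` of a solution `u` of `Δ u = q u` against a function `φ`: the integral of
`(Δ u) φ - u Δ φ`, that is `⟨∂_ν u, φ⟩ - ⟨u, ∂_ν φ⟩` on the boundary. -/
noncomputable def green (Ω : Set (EuclideanSpace ℝ (Fin n)))
    (q u φ : EuclideanSpace ℝ (Fin n) → ℂ) : ℂ :=
  ∫ x in Ω, (q x * u x * φ x - u x * Δ φ x)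

/-- Smooth functions whose support meets the boundary inside `Γ` and whose boundary value is `0`;
their normal derivatives are the test functions on `Γ`. -/
def DTest (Ω Γ : Set (EuclideanSpace ℝ (Fin n))) : Type :=
  {φ : EuclideanSpace ℝ (Fin n) → ℂ // ContDiff ℝ ∞ φ ∧ tsupport φ ∩ frontier Ω ⊆ Γ ∧
    ∀ p ∈ frontier Ω, φ p = 0}

/-- Smooth functions whose support meets the boundary inside `Γ` and whose normal derivative on
the boundary is `0`; their boundary values are the test functions on `Γ`. -/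
def NTest (Ω Γ : Set (EuclideanSpace ℝ (Fin n))) : Type :=
  {φ : EuclideanSpace ℝ (Fin n) → ℂ // ContDiff ℝ ∞ φ ∧ tsupport φ ∩ frontier Ω ⊆ Γ ∧
    ∀ p ∈ frontier Ω, ∀ ρ, IsDef Ω p ρ → fderiv ℝ φ p (gradient ρ p) = 0}

/-- `u` is square integrable on `Ω`, solves `(-Δ + q) u = 0` there in the sense of
distributions, and its boundary value is supported in `Γ`. -/
structure IsSol (Ω Γ : Set (EuclideanSpace ℝ (Fin n))) (q u : EuclideanSpace ℝ (Fin n) → ℂ) :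
    Prop where
  memL2 : MemLp u 2 (volume.restrict Ω)
  solves : ∀ φ, ContDiff ℝ ∞ φ → tsupport φ ⊆ Ω → green Ω q u φ = 0
  supp : ∀ x ∈ frontier Ω \ Γ, ∃ ε > 0, ∀ φ, ContDiff ℝ ∞ φ → (∀ p ∈ frontier Ω, φ p = 0) →
    tsupport φ ⊆ ball x ε → green Ω q u φ = 0

/-- The local Cauchy data set: the pairs `(u|_Γ, ∂_ν u|_Γ)`, where `u|_Γ` is the functional
`φ ↦ ⟨u, ∂_ν φ⟩` on `DTest` and `∂_ν u|_Γ` is the functional `φ ↦ ⟨∂_ν u, φ⟩` on `NTest`. -/
def cauchy (Ω Γ : Set (EuclideanSpace ℝ (Fin n))) (q : EuclideanSpace ℝ (Fin n) → ℂ) :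
    Set ((DTest Ω Γ → ℂ) × (NTest Ω Γ → ℂ)) :=
  {p | ∃ u, IsSol Ω Γ q u ∧ p = (fun φ => -green Ω q u φ.1, fun φ => green Ω q u φ.1)}

end Pool.Agent.MP_71da5e_an.A
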